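import Pool.Agent.H30.VR.Targets

/-!
Row HCN: short paths in a lower regular pair.
-/

set_option autoImplicit false

open Finset Pool.Agent.H48.CE Pool.Agent.H30.VR

namespace Pool.Agent.H76.VR

theorem pf_HCN : T_HCN := by
  classical
  intro V G A B X d t N x y hAB hcard hd hd1 ht hLR h20 hAX hBX hN hxy hne
  have hAr : (20 * t : ℝ) ≤ A.card := by
    have h1 : d * A.card ≤ A.card := mul_le_of_le_one_left (Nat.cast_nonneg _) hd1
    linarith
  have hA20 : 20 * t ≤ A.card := by exact_mod_cast hAr
  have step : ∀ j : ℕ, j ≤ N → ∃ l : Fin N → List V, (∀ i : Fin N, i.val < j →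
      ((l i).length = 3 ∧ Pt G (x i) (l i) (y i) ∧ ∀ v ∈ l i, (v ∈ A ∨ v ∈ B) ∧ v ∉ X)) ∧
      ∀ i i' : Fin N, i.val < j → i'.val < j → i ≠ i' → ∀ v ∈ l i, v ∉ l i' := by
    intro j
    induction j with
    | zero =>
      intro _
      exact ⟨fun _ => [], fun i hi => absurd hi (Nat.not_lt_zero _),
        fun i i' hi => absurd hi (Nat.not_lt_zero _)⟩
    | succ j ih =>
      intro hj
      obtain ⟨l, hl1, hl2⟩ := ih (by omega)
      obtain ⟨j', hj'⟩ : ∃ j' : Fin N, j'.val = j := ⟨⟨j, by omega⟩, rfl⟩
      obtain ⟨Z, hZ⟩ : ∃ Z : Finset V, Z = (Finset.univ.filter fun i : Fin N => i.val < j).biUnion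
        fun i => (l i).toFinset := ⟨_, rfl⟩
      have hZc : Z.card ≤ 3 * N := by
        rw [hZ]
        refine (Finset.card_biUnion_le_card_mul _ _ 3 fun i hi => ?_).trans ?_
        · have := (hl1 i (Finset.mem_filter.1 hi).2).1
          exact (List.toFinset_card_le _).trans this.le
        · rw [mul_comm]
          refine Nat.mul_le_mul_left 3 ?_
          exact (Finset.card_le_univ _).trans (by rw [Fintype.card_fin])
      obtain ⟨X', hX'⟩ : ∃ X' : Finset V, X' = X ∪ Z := ⟨_, rfl⟩
      have hin : ∀ C : Finset V, (C.filter fun v => v ∈ X).card ≤ 3 * t →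
          (C.filter fun v => v ∈ X').card ≤ 4 * t := by
        intro C hC
        have h1 : (C.filter fun v => v ∈ X') ⊆ (C.filter fun v => v ∈ X) ∪ Z := by
          intro v hv
          rw [Finset.mem_filter, hX', Finset.mem_union] at hv
          rw [Finset.mem_union, Finset.mem_filter]
          rcases hv.2 with h | h
          · exact Or.inl ⟨hv.1, h⟩
          · exact Or.inr h
        have h2 := (Finset.card_le_card h1).trans (Finset.card_union_le _ _)
        omega
      have hBX' := hin B hBX
      have hAX' := hin A hAX
      -- a set with many elements outside `X'`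
      have hout : ∀ C D : Finset V, C ⊆ D → (D.filter fun v => v ∈ X').card ≤ 4 * t →
          C.card ≤ (C \ X').card + 4 * t := by
        intro C D hCD hD
        have h1 : C.filter (fun v => v ∈ X') ⊆ D.filter (fun v => v ∈ X') :=
          Finset.filter_subset_filter _ hCD
        have h2 := Finset.card_le_card h1
        have h3 := Finset.card_filter_add_card_filter_not (s := C) (fun v => v ∈ X')
        have h4 : C.filter (fun v => ¬ v ∈ X') = C \ X' := by
          ext v
          rw [Finset.mem_filter, Finset.mem_sdiff]
        rw [h4] at h3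
        omega
      obtain ⟨hxA, hyA, hxX, hyX, hdx, hdy⟩ := hxy j'
      have hBc : (B.card : ℝ) = A.card := by rw [hcard]
      have hnx : 20 * t ≤ (nb G B (x j')).card := by
        have : (20 * t : ℝ) ≤ (nb G B (x j')).card := by
          rw [hBc] at hdx
          linarith
        exact_mod_cast this
      have hny : 20 * t ≤ (nb G B (y j')).card := by
        have : (20 * t : ℝ) ≤ (nb G B (y j')).card := by
          rw [hBc] at hdy
          linarith
        exact_mod_cast this
      have h1 := hout (nb G B (x j')) B (nb_subset B (x j')) hBX'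
      have h2 := hout (nb G B (y j')) B (nb_subset B (y j')) hBX'
      have h3 := hout A A (Finset.Subset.refl _) hAX'
      obtain ⟨S1, hS1, hS1c⟩ := Finset.exists_subset_card_eq (s := nb G B (x j') \ X') (n := t)
        (by omega)
      have h4 : t ≤ ((nb G B (y j') \ X') \ S1).card := by
        have := Finset.le_card_sdiff S1 (nb G B (y j') \ X')
        omega
      obtain ⟨S2, hS2, hS2c⟩ := Finset.exists_subset_card_eq h4
      have hS1B : S1 ⊆ B := fun v hv => nb_subset B _ (Finset.mem_sdiff.1 (hS1 hv)).1
      have hS2B : S2 ⊆ B := fun v hv =>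
        nb_subset B _ (Finset.mem_sdiff.1 (Finset.mem_sdiff.1 (hS2 hv)).1).1
      have hhole : ∀ S : Finset V, S ⊆ B → S.card = t →
          ((A \ X').filter fun c => ∀ b ∈ S, ¬ G.Adj c b).card < t := by
        intro S hSB hSc
        by_contra hcon
        push Not at hcon
        obtain ⟨a, ha, b, hb, hadj⟩ := hLR.hole hd ht (A' := (A \ X').filter fun c =>
          ∀ b ∈ S, ¬ G.Adj c b) (B' := S) (fun v hv =>
            (Finset.mem_sdiff.1 (Finset.mem_filter.1 hv).1).1) hSB hcon hSc.symm.le
        exact (Finset.mem_filter.1 ha).2 b hb hadj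
      have h5 := hhole S1 hS1B hS1c
      have h6 := hhole S2 hS2B hS2c
      obtain ⟨c, hc, hc1, hc2⟩ : ∃ c ∈ A \ X', (∃ b ∈ S1, G.Adj c b) ∧ ∃ b ∈ S2, G.Adj c b := by
        by_contra hcon
        push Not at hcon
        have h7 : A \ X' ⊆ ((A \ X').filter fun c => ∀ b ∈ S1, ¬ G.Adj c b) ∪
            ((A \ X').filter fun c => ∀ b ∈ S2, ¬ G.Adj c b) := by
          intro c hc
          rw [Finset.mem_union, Finset.mem_filter, Finset.mem_filter]
          by_cases h : ∃ b ∈ S1, G.Adj c b
          · obtain ⟨b, hb, hcb⟩ := h
            exact Or.inr ⟨hc, hcon c hc ⟨b, hb, hcb⟩⟩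
          · push Not at h
            exact Or.inl ⟨hc, h⟩
        have h8 := (Finset.card_le_card h7).trans (Finset.card_union_le _ _)
        omega
      obtain ⟨b, hb, hcb⟩ := hc1
      obtain ⟨b', hb', hcb'⟩ := hc2
      have hbm := Finset.mem_sdiff.1 (hS1 hb)
      have hb'm := Finset.mem_sdiff.1 (hS2 hb')
      have hb'm1 := Finset.mem_sdiff.1 hb'm.1
      have hbx := (mem_nb.1 hbm.1)
      have hb'y := (mem_nb.1 hb'm1.1)
      have hbb' : b ≠ b' := by
        rintro rfl
        exact hb'm.2 hb
      have hcA := (Finset.mem_sdiff.1 hc).1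
      have hcX := (Finset.mem_sdiff.1 hc).2
      have hX'X : ∀ v, v ∉ X' → v ∉ X := by
        intro v hv h
        rw [hX'] at hv
        exact hv (Finset.mem_union_left _ h)
      have hX'Z : ∀ v, v ∉ X' → v ∉ Z := by
        intro v hv h
        rw [hX'] at hv
        exact hv (Finset.mem_union_right _ h)
      have hnew : ∀ v ∈ [b, c, b'], v ∉ X' := by
        intro v hv
        simp only [List.mem_cons, List.not_mem_nil, or_false] at hv
        rcases hv with rfl | rfl | rfl
        · exact hbm.2
        · exact hcX
        · exact hb'm1.2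
      have hold : ∀ i : Fin N, i.val < j → ∀ v ∈ l i, v ∈ Z := by
        intro i hi v hv
        rw [hZ]
        exact Finset.mem_biUnion.2 ⟨i, Finset.mem_filter.2 ⟨Finset.mem_univ _, hi⟩,
          List.mem_toFinset.2 hv⟩
      refine ⟨Function.update l j' [b, c, b'], ?_, ?_⟩
      · intro i hi
        by_cases hij : i = j'
        · subst hij
          rw [Function.update_self]
          refine ⟨rfl, ⟨?_, ?_⟩, ?_⟩
          · have e1 : x i ≠ b := fun h => hAB _ hxA (h ▸ hbx.1)
            have e2 : x i ≠ c := fun h => hX'X _ hcX (h ▸ hxX)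
            have e3 : x i ≠ b' := fun h => hAB _ hxA (h ▸ hb'y.1)
            have e4 : b ≠ c := fun h => hAB _ hcA (h ▸ hbx.1)
            have e5 : b ≠ y i := fun h => hAB _ hyA (h ▸ hbx.1)
            have e6 : c ≠ b' := fun h => hAB _ hcA (h ▸ hb'y.1)
            have e7 : c ≠ y i := fun h => hX'X _ hcX (h ▸ hyX)
            have e8 : b' ≠ y i := fun h => hAB _ hyA (h ▸ hb'y.1)
            simp [e1, e2, e3, hne i, e4, hbb', e5, e6, e7, e8]
          · simp [hbx.2, hcb.symm, hcb', hb'y.2.symm]
          · intro v hv
            refine ⟨?_, hX'X v (hnew v hv)⟩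
            simp only [List.mem_cons, List.not_mem_nil, or_false] at hv
            rcases hv with rfl | rfl | rfl
            · exact Or.inr hbx.1
            · exact Or.inl hcA
            · exact Or.inr hb'y.1
        · rw [Function.update_of_ne hij]
          have : i.val < j := by
            have : i.val ≠ j := fun h => hij (Fin.ext (h.trans hj'.symm))
            omega
          exact hl1 i this
      · intro i i' hi hi' hii' v hv hv'
        by_cases hij : i = j'
        · have hi'j : i' ≠ j' := fun h => hii' (hij.trans h.symm)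
          rw [hij, Function.update_self] at hv
          rw [Function.update_of_ne hi'j] at hv'
          have : i'.val < j := by
            have : i'.val ≠ j := fun h => hi'j (Fin.ext (h.trans hj'.symm))
            omega
          exact hX'Z v (hnew v hv) (hold i' this v hv')
        · rw [Function.update_of_ne hij] at hv
          have hlt : i.val < j := by
            have : i.val ≠ j := fun h => hij (Fin.ext (h.trans hj'.symm))
            omega
          by_cases hi'j : i' = j'
          · rw [hi'j, Function.update_self] at hv'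
            exact hX'Z v (hnew v hv') (hold i hlt v hv)
          · rw [Function.update_of_ne hi'j] at hv'
            have hlt' : i'.val < j := by
              have : i'.val ≠ j := fun h => hi'j (Fin.ext (h.trans hj'.symm))
              omega
            exact hl2 i i' hlt hlt' hii' v hv hv'
  obtain ⟨l, hl1, hl2⟩ := step N le_rfl
  exact ⟨l, fun i => hl1 i i.isLt, fun i j hij => hl2 i j i.isLt j.isLt hij⟩

end Pool.Agent.H76.VR
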