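import Pool.Agent.H30.VR.Targets

/-!
Row HLF: a bipartite subgraph with half of the edges.
-/

set_option autoImplicit false

open Finset Pool.Agent.H48.CE Pool.Agent.H30.VR

namespace Pool.Agent.H76.VR

theorem pf_HLF : T_HLF := by
  classical
  intro V G W
  suffices h : ∃ X Y : Finset V, X ∪ Y = W ∧ Disjoint X Y ∧ ee G W W ≤ 4 * ee G X Y by
    obtain ⟨X, Y, h1, h2, h3⟩ := h
    refine ⟨X, h1 ▸ Finset.subset_union_left, Y, h1 ▸ Finset.subset_union_right, ?_, h3⟩
    intro v hv hv'
    exact Finset.disjoint_left.1 h2 hv hv'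
  induction W using Finset.induction_on with
  | empty => exact ⟨∅, ∅, by simp, by simp, by simp [ee]⟩
  | insert w W hw ih =>
    obtain ⟨X, Y, hXY, hd, h⟩ := ih
    have hwX : w ∉ X := fun h => hw (hXY ▸ Finset.mem_union_left _ h)
    have hwY : w ∉ Y := fun h => hw (hXY ▸ Finset.mem_union_right _ h)
    have h0 : ee G {w} {w} = 0 := by
      rw [ee_singleton_left, Finset.card_eq_zero, Finset.eq_empty_iff_forall_notMem]
      intro v hv
      rw [mem_nb, Finset.mem_singleton] at hv
      exact G.loopless.irrefl _ (hv.1 ▸ hv.2)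
    have h1 : ee G (insert w W) (insert w W) = ee G W W + 2 * ee G {w} W := by
      rw [Finset.insert_eq, ee_union_left (Finset.disjoint_singleton_left.2 hw),
        ee_union_right (Finset.disjoint_singleton_left.2 hw),
        ee_union_right (Finset.disjoint_singleton_left.2 hw), h0, ee_comm W {w}]
      ring
    have h2 : ee G {w} W = ee G {w} X + ee G {w} Y := by
      rw [← hXY, ee_union_right hd]
    rcases le_total (ee G {w} X) (ee G {w} Y) with hle | hle
    · refine ⟨insert w X, Y, by rw [Finset.insert_union, hXY], ?_, ?_⟩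
      · rw [Finset.disjoint_insert_left]
        exact ⟨hwY, hd⟩
      · rw [h1, Finset.insert_eq w X, ee_union_left (Finset.disjoint_singleton_left.2 hwX)]
        omega
    · refine ⟨X, insert w Y, by rw [Finset.union_insert, hXY], ?_, ?_⟩
      · rw [Finset.disjoint_insert_right]
        exact ⟨hwX, hd⟩
      · rw [h1, Finset.insert_eq w Y, ee_union_right (Finset.disjoint_singleton_left.2 hwY),
          ee_comm X {w}]
        omega

end Pool.Agent.H76.VR
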