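import Pool.Agent.H30.VR.Targets

/-!
Row SPL: disjoint subsets from a fractional packing (Hall).
-/

set_option autoImplicit false

open Finset Pool.Agent.H48.CE Pool.Agent.H30.VR

namespace Pool.Agent.H76.VR

theorem pf_SPL : T_SPL := by
  classical
  intro V ι _ _ S x s hx0 hx1 hs
  have hall : ∀ I : Finset ((i : ι) × Fin (s i)), I.card ≤ (I.biUnion fun q => S q.1).card := by
    intro I
    obtain ⟨J, hJ⟩ : ∃ J : Finset ι, J = I.image Sigma.fst := ⟨_, rfl⟩
    obtain ⟨U, hU⟩ : ∃ U : Finset V, U = I.biUnion fun q => S q.1 := ⟨_, rfl⟩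
    rw [← hU]
    have h1 : I.card ≤ ∑ i ∈ J, s i := by
      have h2 : I ⊆ J.sigma fun i => (Finset.univ : Finset (Fin (s i))) := by
        intro q hq
        rw [Finset.mem_sigma]
        exact ⟨by rw [hJ]; exact Finset.mem_image_of_mem _ hq, Finset.mem_univ _⟩
      refine (Finset.card_le_card h2).trans (le_of_eq ?_)
      rw [Finset.card_sigma]
      exact Finset.sum_congr rfl fun i _ => by rw [Finset.card_univ, Fintype.card_fin]
    have hSU : ∀ i ∈ J, S i ⊆ U := by
      intro i hi
      rw [hJ, Finset.mem_image] at hi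
      obtain ⟨q, hq, rfl⟩ := hi
      rw [hU]
      exact Finset.subset_biUnion_of_mem (fun q : (i : ι) × Fin (s i) => S q.1) hq
    have h3 : (∑ i ∈ J, (s i : ℝ)) ≤ U.card := by
      calc (∑ i ∈ J, (s i : ℝ)) ≤ ∑ i ∈ J, ∑ v ∈ S i, x v :=
            Finset.sum_le_sum fun i _ => hs i
        _ = ∑ i ∈ J, ∑ v ∈ U, if v ∈ S i then x v else 0 := by
            refine Finset.sum_congr rfl fun i hi => ?_
            rw [← Finset.sum_filter]
            refine Finset.sum_congr ?_ fun _ _ => rfl
            ext v
            rw [Finset.mem_filter]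
            exact ⟨fun h => ⟨hSU i hi h, h⟩, fun h => h.2⟩
        _ = ∑ v ∈ U, ∑ i ∈ J, if v ∈ S i then x v else 0 := Finset.sum_comm
        _ ≤ ∑ v ∈ U, 1 := by
            refine Finset.sum_le_sum fun v _ => ?_
            calc (∑ i ∈ J, if v ∈ S i then x v else 0) ≤
                ∑ i, (if v ∈ S i then x v else 0) := by
                  refine Finset.sum_le_sum_of_subset_of_nonneg (Finset.subset_univ _)
                    fun i _ _ => ?_
                  split_ifs
                  · exact hx0 v
                  · exact le_rfl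
              _ = x v * ((univ.filter (fun i => v ∈ S i)).card : ℝ) := by
                  rw [← Finset.sum_filter, Finset.sum_const, nsmul_eq_mul, mul_comm]
              _ ≤ 1 := by
                  have := hx1 v
                  convert this
        _ = U.card := by rw [Finset.sum_const, nsmul_eq_mul, mul_one]
    have h4 : ((∑ i ∈ J, s i : ℕ) : ℝ) ≤ U.card := by
      push_cast
      exact h3
    exact h1.trans (by exact_mod_cast h4)
  obtain ⟨f, hf, hfS⟩ := (Finset.all_card_le_biUnion_card_iff_exists_injective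
    (fun q : (i : ι) × Fin (s i) => S q.1)).1 hall
  refine ⟨fun i => Finset.univ.image fun k : Fin (s i) => f ⟨i, k⟩, fun i => ⟨?_, ?_⟩, ?_⟩
  · intro v hv
    obtain ⟨k, -, rfl⟩ := Finset.mem_image.1 hv
    exact hfS ⟨i, k⟩
  · rw [Finset.card_image_of_injective, Finset.card_univ, Fintype.card_fin]
    intro k k' h
    have := hf h
    simpa using this
  · intro i j hij v hv hv'
    obtain ⟨k, -, h1⟩ := Finset.mem_image.1 hv
    obtain ⟨k', -, h2⟩ := Finset.mem_image.1 hv'
    exact hij (congrArg Sigma.fst (hf (h1.trans h2.symm)))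

end Pool.Agent.H76.VR
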