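import Pool.Agent.H30.VR.Targets

/-!
Row CNT: consecutive even lengths.
-/

set_option autoImplicit false

open Finset Pool.Agent.H48.CE Pool.Agent.H30.VR

namespace Pool.Agent.H76.VR

theorem exists_sum {ι : Type} [DecidableEq ι] (u : ι → ℕ) (I : Finset ι) :
    ∀ n : ℕ, n ≤ ∑ i ∈ I, u i → ∃ s : ι → ℕ, (∀ i ∈ I, s i ≤ u i) ∧ ∑ i ∈ I, s i = n := by
  induction I using Finset.induction_on with
  | empty =>
    intro n hn
    rw [Finset.sum_empty] at hn
    exact ⟨fun _ => 0, by simp, by rw [Finset.sum_empty]; omega⟩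
  | insert a I ha ih =>
    intro n hn
    rw [Finset.sum_insert ha] at hn
    obtain ⟨s, hs1, hs2⟩ := ih (n - min n (u a)) (by omega)
    refine ⟨fun i => if i = a then min n (u a) else s i, ?_, ?_⟩
    · intro i hi
      change (if i = a then min n (u a) else s i) ≤ u i
      split_ifs with h
      · rw [h]
        exact min_le_right _ _
      · exact hs1 i (Finset.mem_of_mem_insert_of_ne hi h)
    · rw [Finset.sum_insert ha, if_pos rfl]
      have : ∑ i ∈ I, (if i = a then min n (u a) else s i) = ∑ i ∈ I, s i := by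
        refine Finset.sum_congr rfl fun i hi => ?_
        rw [if_neg]
        rintro rfl
        exact ha hi
      rw [this, hs2]
      omega

theorem pf_CNT : T_CNT := by
  classical
  intro V G M k p u hC hk hM
  rcases Nat.eq_zero_or_pos k with rfl | hk0
  · exact ⟨0, fun i hi => absurd hi (Nat.not_lt_zero _)⟩
  have key : ∀ I : Finset (Fin M), I.Nonempty → Even (∑ i ∈ I, p i) → k ≤ ∑ i ∈ I, u i →
      HasRun k G := by
    intro I hI he hku
    obtain ⟨l, hl⟩ := he
    refine ⟨l, fun i hi => ?_⟩
    obtain ⟨s, hs1, hs2⟩ := exists_sum u I i (by omega)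
    have h1 := hC I hI s hs1
    have h2 : ∑ i ∈ I, (p i + 2 * s i) = 2 * l + 2 * i := by
      rw [Finset.sum_add_distrib, ← Finset.mul_sum, hs2, hl]
      ring
    rw [h2] at h1
    exact h1
  by_cases he : Even (∑ i, p i)
  · refine key univ ⟨⟨0, hM⟩, Finset.mem_univ _⟩ he ?_
    exact (hk ⟨0, hM⟩).trans (Finset.sum_le_sum_of_subset (Finset.erase_subset _ _))
  · obtain ⟨j, hj⟩ : ∃ j, ¬ Even (p j) := by
      by_contra hcon
      push Not at hcon
      exact he (Finset.even_sum _ fun i _ => hcon i)
    have h1 : Even (∑ i ∈ univ.erase j, p i) := by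
      have h2 := Finset.add_sum_erase univ p (Finset.mem_univ j)
      rw [← h2, Nat.even_add] at he
      by_contra h3
      exact he ⟨fun h => absurd h hj, fun h => absurd h h3⟩
    refine key _ ?_ h1 (hk j)
    have h2 := hk j
    rw [Finset.nonempty_iff_ne_empty]
    intro h3
    rw [h3, Finset.sum_empty] at h2
    omega

end Pool.Agent.H76.VR
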